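import Pool.Agent.Run7.h282.PM.Iface

/-!
# Project PM (helper282), piece REIDX: renaming the variables (helper803)
-/

set_option autoImplicit false
set_option linter.all false

open Finset

namespace Run7.h803.PM

open Run7.h282.PM

section

variable {F : Type} [Field F] {κ κ' : Type} [DecidableEq κ] [DecidableEq κ']

/-- the renamed element -/
def T (e : κ ≃ κ') (y : Finset κ → F) : Finset κ' → F := fun S => y (S.map e.symm.toEmbedding)

theorem T_mulv (e : κ ≃ κ') (x : κ → F) (y : Finset κ → F) :
    mulv (fun j => x (e.symm j)) (T e y) = T e (mulv x y) := by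
  funext S
  show ∑ j ∈ S, x (e.symm j) * y ((S.erase j).map e.symm.toEmbedding) =
    ∑ i ∈ S.map e.symm.toEmbedding, x i * y ((S.map e.symm.toEmbedding).erase i)
  rw [Finset.sum_map]
  refine Finset.sum_congr rfl fun j _ => ?_
  rw [Finset.map_erase]
  rfl

theorem T_zero (e : κ ≃ κ') (y : Finset κ → F) : T e y = 0 ↔ y = 0 := by
  constructor
  · intro h
    funext S
    have h1 := congrFun h (S.map e.toEmbedding)
    have h2 : (S.map e.toEmbedding).map e.symm.toEmbedding = S := by
      rw [Finset.map_map]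
      ext i
      simp
    have h3 : T e y (S.map e.toEmbedding) = y S := by
      unfold T
      rw [h2]
    rw [← h3, h1]
    rfl
  · intro h
    rw [h]
    rfl

theorem T_zf (e : κ ≃ κ') (y : Finset κ → F) : zf (T e y) = zf y := by
  unfold zf
  by_cases h : y = 0
  · rw [if_pos h, if_pos ((T_zero e y).2 h)]
  · rw [if_neg h, if_neg (fun h' => h ((T_zero e y).1 h'))]

theorem T_one (e : κ ≃ κ') : T e (one F κ) = one F κ' := by
  funext S
  show (if S.map e.symm.toEmbedding = ∅ then (1 : F) else 0) = if S = ∅ then 1 else 0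
  simp only [Finset.map_eq_empty]

theorem T_A0 [Fintype F] [Fintype κ] [Fintype κ'] (e : κ ≃ κ') (f : (Finset κ' → F) → ℝ)
    (y : Finset κ → F) : A0 F κ' f (T e y) = A0 F κ (fun z => f (T e z)) y := by
  unfold A0 Aop
  rw [Fintype.card_congr e]
  congr 1
  rw [← Equiv.sum_comp (e.arrowCongr (Equiv.refl F))]
  refine Finset.sum_congr rfl fun x _ => ?_
  show f (mulv (fun j => x (e.symm j)) (T e y)) = f (T e (mulv x y))
  rw [T_mulv]

theorem T_iter [Fintype F] [Fintype κ] [Fintype κ'] (e : κ ≃ κ') (m : ℕ) :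
    ∀ (f : (Finset κ' → F) → ℝ) (y : Finset κ → F),
      (A0 F κ')^[m] f (T e y) = (A0 F κ)^[m] (fun z => f (T e z)) y := by
  induction m with
  | zero => intro f y; rfl
  | succ m ih =>
    intro f y
    rw [Function.iterate_succ_apply, Function.iterate_succ_apply, ih]
    have hh : (fun z => A0 F κ' f (T e z)) = A0 F κ (fun z => f (T e z)) :=
      funext fun z => T_A0 e f z
    rw [hh]

end

/-- **REIDX** -/
theorem t_REIDX : S_REIDX := by
  intro F _ _ κ κ' _ _ _ _ e m
  have h1 : ∀ y : Finset κ → F, (A0 F κ)^[m] zf y = (A0 F κ')^[m] zf (T e y) := by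
    intro y
    rw [T_iter]
    simp only [T_zf]
  refine ⟨h1, ?_⟩
  rw [h1, T_one]

end Run7.h803.PM
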